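import Pool.Agent.H38.O1.N3

set_option autoImplicit false

/-!
`eta = T_b⁻¹ t T_b t⁻¹` commutes with `D_q eta D_q` for all `q` (helper17's proof, from N3 and N4),
where `t` is an inner mapping that fixes every `s` with `L_b L_s = L_(b s)`.
-/

namespace ALoop

open Equiv

variable {Q : Type*} {G : Subgroup (Perm Q)} {L : Q → Perm Q} {J : Perm Q} {e : Q}

namespace AL0

theorem Th_app_iff (h : AL0 G L J e) (v w s : Q) :
    Th L J v w s = s ↔ L (L v s) w = L v (L s w) := by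
  unfold Th
  simp only [Perm.mul_apply]
  rw [Perm.inv_eq_iff_eq, Perm.inv_eq_iff_eq, h.Rt_app, h.Rt_app]
  exact eq_comm

theorem Nsp_iff_Th (h : AL0 G L J e) (s v : Q) : Nsp L s v ↔ ∀ w, Th L J v w s = s := by
  constructor
  · intro hv w
    rw [h.Th_app_iff, ← (show L v * L s = L (L v s) from hv), Perm.mul_apply]
  · intro hv
    ext w
    rw [Perm.mul_apply, ← (h.Th_app_iff v w s).1 (hv w)]

/-- the mirror half -/
theorem Nsp_Th' (h : AL0 G L J e) {s v : Q} (hv : Nsp L s v) (w : Q) : Th L J w v s = s := by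
  have h1 := (h.Nsp_iff_Th s (J v)).1 (h.Nsp_inv hv) (J w)
  rw [h.Th_inv] at h1
  rw [Perm.inv_eq_iff_eq] at h1
  exact h1.symm

theorem Nsp_e (h : AL0 G L J e) (s : Q) : Nsp L s e := by
  unfold Nsp
  rw [h.Le1, Perm.one_apply, one_mul]

/-- closure in the other variable -/
theorem Csp_mul (h : AL0 G L J e) {s t v : Q} (hs : Nsp L s v) (ht : Nsp L t v) :
    Nsp L (L s t) v := by
  rw [h.Nsp_iff_Th] at hs ht ⊢
  intro w
  rw [h.aut (h.Th_mem v w) (h.Th_e v w), hs, ht]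

theorem Csp_ldiv (h : AL0 G L J e) {s t v : Q} (hs : Nsp L s v) (ht : Nsp L (L s t) v) :
    Nsp L t v := by
  rw [h.Nsp_iff_Th] at hs ht ⊢
  intro w
  have h1 := ht w
  rw [h.aut (h.Th_mem v w) (h.Th_e v w), hs] at h1
  exact (L s).injective h1

theorem Nsp_rdiv (h : AL0 G L J e) {s v w : Q} (hw : Nsp L s w) (hv : Nsp L s (L v w)) :
    Nsp L s v := by
  rw [h.Nsp_iff] at hv hw ⊢
  intro y
  obtain ⟨h1, h2⟩ := h.Nsp_r s y
  have h3 := hv y
  rw [h.aut h1 h2, hw, ← h.Rt_app w v, ← h.Rt_app w] at h3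
  exact (Rt L J w).injective h3

/-- `N_c` is closed under `y ↦ T_b y` -/
theorem Nsp_Tx (h : AL0 G L J e) {c b y : Q} (hb : Nsp L c b) (hy : Nsp L c y) :
    Nsp L c (Tx L J b y) := by
  unfold Tx
  rw [Perm.mul_apply]
  apply h.Nsp_mul hb
  apply h.Nsp_rdiv hb
  rw [← h.Rt_app b, apply_inv']
  exact hy

/-- `eta = T_b⁻¹ t T_b t⁻¹` commutes with `D_q eta D_q` -/
theorem eta_comm (h : AL0 G L J e) {b : Q} {t : Perm Q} (ht : t ∈ G) (hte : t e = e)
    (htC : ∀ s, Nsp L s b → t s = s) {eta : Perm Q}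
    (heta : eta = (Tx L J b)⁻¹ * t * Tx L J b * t⁻¹) (q : Q) :
    eta * (D L J q * eta * D L J q) = (D L J q * eta * D L J q) * eta := by
  obtain ⟨T, hT⟩ : ∃ T, T = Tx L J b := ⟨_, rfl⟩
  have hTG : T ∈ G := by rw [hT]; exact h.Tx_mem b
  have hTe : T e = e := by rw [hT]; exact h.Tx_e b
  have hTb : T b = b := by rw [hT]; exact h.Tx_x b
  have hTiG : T⁻¹ ∈ G := G.inv_mem hTG
  have hTie : T⁻¹ e = e := by rw [Perm.inv_eq_iff_eq, hTe]
  have hTib : T⁻¹ b = b := by rw [Perm.inv_eq_iff_eq, hTb]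
  rw [← hT] at heta
  have hetaG : eta ∈ G := by
    rw [heta]
    exact G.mul_mem (G.mul_mem (G.mul_mem hTiG ht) hTG) (G.inv_mem ht)
  have htie : t⁻¹ e = e := by rw [Perm.inv_eq_iff_eq, hte]
  have hetae : eta e = e := by
    rw [heta]
    simp only [Perm.mul_apply]
    rw [htie, hTe, hte, hTie]
  have htC' : ∀ s, Nsp L s b → t⁻¹ s = s := by
    intro s hs
    rw [Perm.inv_eq_iff_eq, htC s hs]
  -- (1) `C_(t b) = C_b`
  have hC1 : ∀ s, Nsp L s (t b) → Nsp L s b := by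
    intro s hs
    have h1 := h.Nsp_inn (G.inv_mem ht) htie hs
    rw [inv_apply'] at h1
    have h2 := htC _ h1
    rw [apply_inv'] at h2
    rwa [← h2] at h1
  -- (2)
  obtain ⟨s, hs⟩ : ∃ s, s = (L q)⁻¹ (T q) := ⟨_, rfl⟩
  have hs1 : Nsp L s q := by rw [hs, hT]; exact h.N3 b q
  have hs2 : Nsp L s b := by rw [hs, hT]; exact h.N4 b q
  have hqs : L q s = T q := by rw [hs, apply_inv']
  have hT1 : t * T * t⁻¹ = Tx L J (t b) := by
    have e1 := h.equi t ht hte b
    have e2 : t * Rt L J b * t⁻¹ = Rt L J (t b) := by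
      have hj := h.comJ t ht hte
      have e3 := h.equi t ht hte (J b)
      have e4 : t (J b) = J (t b) := by
        have := congrArg (fun f : Perm Q => f b) hj
        simpa using this
      unfold Rt
      rw [← e4, ← e3]
      calc t * (J * L (J b) * J) * t⁻¹ = (t * J) * L (J b) * (J * t⁻¹) := by group
        _ = (J * t) * L (J b) * (J * t⁻¹) := by rw [hj]
        _ = J * t * L (J b) * (t⁻¹ * (t * J) * t⁻¹) := by group
        _ = J * t * L (J b) * (t⁻¹ * (J * t) * t⁻¹) := by rw [hj]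
        _ = _ := by group
    rw [hT]; unfold Tx
    rw [← e1, ← e2]; group
  have hTeta : T * eta = Tx L J (t b) := by
    rw [← hT1, heta]; group
  obtain ⟨s1, hs1'⟩ : ∃ s1, s1 = (L q)⁻¹ (Tx L J (t b) q) := ⟨_, rfl⟩
  have hs3 : Nsp L s1 q := by rw [hs1']; exact h.N3 (t b) q
  have hs4 : Nsp L s1 b := by rw [hs1']; exact hC1 _ (h.N4 (t b) q)
  have hqs1 : L q s1 = T (eta q) := by
    rw [hs1', apply_inv', ← hTeta, Perm.mul_apply]
  -- (3)
  obtain ⟨c, hc⟩ : ∃ c, c = (L q)⁻¹ (eta q) := ⟨_, rfl⟩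
  have hqc : L q c = eta q := by rw [hc, apply_inv']
  have h3 : L s (T c) = s1 := by
    have e1 : L q s1 = L q (L s (T c)) := by
      rw [hqs1, ← hqc, h.aut hTG hTe, ← hqs, ← (show L q * L s = L (L q s) from hs1),
        Perm.mul_apply]
    exact ((L q).injective e1).symm
  have h4q : Nsp L (T c) q := h.Csp_ldiv hs1 (by rw [h3]; exact hs3)
  have h4b : Nsp L (T c) b := h.Csp_ldiv hs2 (by rw [h3]; exact hs4)
  -- (4)
  have h5b : Nsp L c b := by
    have h1 := h.Nsp_inn hTiG hTie h4b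
    rwa [inv_apply', hTib] at h1
  have h5q : Nsp L c (T⁻¹ q) := by
    have h1 := h.Nsp_inn hTiG hTie h4q
    rwa [inv_apply'] at h1
  have h6 : Nsp L c q := by
    have h1 := h.Nsp_Tx h5b h5q
    rwa [← hT, apply_inv'] at h1
  -- (5)
  have hec : eta c = c := by
    have e1 : t⁻¹ c = c := htC' c h5b
    have e2 : Nsp L (T c) b := h4b
    rw [heta]
    simp only [Perm.mul_apply]
    rw [e1, htC _ e2, inv_apply']
  have hLc : eta * L c = L c * eta := h.comL hetaG hetae hec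
  have hJe : eta * J = J * eta := h.comJ _ hetaG hetae
  have hLq : eta * L q * eta⁻¹ = L q * L c := by
    rw [h.equi eta hetaG hetae q, ← hqc]
    exact (show L q * L c = L (L q c) from h6).symm
  have hJi := h.Jinv
  have hJJ := h.JJ1
  have hLR : L c * (J * L c * J) = (J * L c * J) * L c := by
    rw [h.JLJ]; exact h.LRJ c
  -- `D_(eta q) D_q = L_q P_c L_q⁻¹`
  obtain ⟨P, hP⟩ : ∃ P, P = L c * J * (L c)⁻¹ * J := ⟨_, rfl⟩
  have hPc : L c * P = P * L c := by
    have e1 : P = L c * (J * L c * J)⁻¹ := by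
      rw [hP, mul_inv_rev, mul_inv_rev, hJi]; group
    have e2 : (J * L c * J)⁻¹ * L c = L c * (J * L c * J)⁻¹ := by
      rw [inv_mul_eq_iff_eq_mul, ← mul_assoc, ← hLR]; group
    rw [e1]
    calc L c * (L c * (J * L c * J)⁻¹) = L c * ((J * L c * J)⁻¹ * L c) := by rw [e2]
      _ = L c * (J * L c * J)⁻¹ * L c := by group
  have hPe : eta * P = P * eta := by
    have hi : eta * (L c)⁻¹ = (L c)⁻¹ * eta := by
      rw [eq_inv_mul_iff_mul_eq, ← mul_assoc, ← hLc]; group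
    rw [hP]
    calc eta * (L c * J * (L c)⁻¹ * J) = (eta * L c) * J * (L c)⁻¹ * J := by group
      _ = L c * (eta * J) * (L c)⁻¹ * J := by rw [hLc]; group
      _ = L c * J * (eta * (L c)⁻¹) * J := by rw [hJe]; group
      _ = L c * J * (L c)⁻¹ * (eta * J) := by rw [hi]; group
      _ = _ := by rw [hJe]; group
  have hDD : eta * D L J q * eta⁻¹ * D L J q = L q * P * (L q)⁻¹ := by
    have e1 : eta * D L J q * eta⁻¹ = L q * L c * J * (L q * L c)⁻¹ := by
      unfold D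
      rw [← hLq]
      calc eta * (L q * J * (L q)⁻¹) * eta⁻¹ =
          (eta * L q * eta⁻¹) * (eta * J) * eta⁻¹ * (eta * L q * eta⁻¹)⁻¹ := by group
        _ = (eta * L q * eta⁻¹) * (J * eta) * eta⁻¹ * (eta * L q * eta⁻¹)⁻¹ := by rw [hJe]
        _ = _ := by group
    rw [e1, hP]; unfold D; group
  have hX : eta * (L q * P * (L q)⁻¹) * eta⁻¹ = L q * P * (L q)⁻¹ := by
    calc eta * (L q * P * (L q)⁻¹) * eta⁻¹ =
        (eta * L q * eta⁻¹) * (eta * P) * eta⁻¹ * (eta * L q * eta⁻¹)⁻¹ := by group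
      _ = (L q * L c) * (P * eta) * eta⁻¹ * (L q * L c)⁻¹ := by rw [hLq, hPe]
      _ = L q * (L c * P) * (L c)⁻¹ * (L q)⁻¹ := by group
      _ = L q * (P * L c) * (L c)⁻¹ * (L q)⁻¹ := by rw [hPc]
      _ = L q * P * (L q)⁻¹ := by group
  rw [← hDD] at hX
  have hD2 : D L J q * D L J q = 1 := by
    unfold D
    calc L q * J * (L q)⁻¹ * (L q * J * (L q)⁻¹) = L q * (J * J) * (L q)⁻¹ := by group
      _ = 1 := by rw [hJJ]; group
  have hDi : (D L J q)⁻¹ = D L J q := inv_eq_of_mul_eq_one_left hD2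
  obtain ⟨A, hA⟩ : ∃ A, A = D L J q * eta⁻¹ * D L J q := ⟨_, rfl⟩
  have hA1 : eta * A = A * eta := by
    have e1 : eta * A * eta⁻¹ = A := by
      have e2 : eta * (eta * D L J q * eta⁻¹ * D L J q) * eta⁻¹ = eta * (eta * A * eta⁻¹) := by
        rw [hA]; group
      have e3 : eta * D L J q * eta⁻¹ * D L J q = eta * A := by rw [hA]; group
      rw [e2, e3] at hX
      exact mul_left_cancel hX
    calc eta * A = (eta * A * eta⁻¹) * eta := by group
      _ = A * eta := by rw [e1]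
  have hB : D L J q * eta * D L J q = A⁻¹ := by
    rw [hA]
    simp only [mul_inv_rev, inv_inv, hDi]
    rw [mul_assoc]
  rw [hB]
  calc eta * A⁻¹ = A⁻¹ * (A * eta) * A⁻¹ := by group
    _ = A⁻¹ * (eta * A) * A⁻¹ := by rw [hA1]
    _ = A⁻¹ * eta := by group

/-- `eta = T_b⁻¹ T_(t b)`, `t = th(a, b)`, commutes with `D_q eta D_q` -/
theorem eta_comm_Th (h : AL0 G L J e) (a b q : Q) {eta : Perm Q}
    (heta : eta = (Tx L J b)⁻¹ * Th L J a b * Tx L J b * (Th L J a b)⁻¹) :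
    eta * (D L J q * eta * D L J q) = (D L J q * eta * D L J q) * eta :=
  h.eta_comm (h.Th_mem a b) (h.Th_e a b) (fun _ hs => h.Nsp_Th' hs a) heta q

end AL0

end ALoop
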